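import Mathlib
import Pool.Agent.W646.CI.Stm

/-!
CI-EP: moving a zero.
-/

set_option autoImplicit false

namespace Pool.Agent.W933.CI

open Pool.Agent.W646.CI Finset

noncomputable section

def gg (p : ℕ) (z : ℂ) : ℂ := ∑ k ∈ range p, z ^ (k + 1) / ((k : ℂ) + 1)

theorem Ep_eq (p : ℕ) (z : ℂ) : MinMod.Ep p z = (1 - z) * Complex.exp (gg p z) := rfl

theorem gg_deriv (p : ℕ) (z : ℂ) : HasDerivAt (gg p) (∑ k ∈ range p, z ^ k) z := by
  unfold gg
  have h : ∀ k ∈ range p, HasDerivAt (fun z : ℂ => z ^ (k + 1) / ((k : ℂ) + 1)) (z ^ k) z := by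
    intro k _
    have h1 := (hasDerivAt_pow (k + 1) z).div_const ((k : ℂ) + 1)
    have hk : ((k : ℂ) + 1) ≠ 0 := by exact_mod_cast Nat.succ_ne_zero k
    have h2 : (((k + 1 : ℕ) : ℂ) * z ^ (k + 1 - 1)) / ((k : ℂ) + 1) = z ^ k := by
      rw [Nat.add_sub_cancel]
      push_cast
      field_simp
    rwa [h2] at h1
  exact HasDerivAt.fun_sum h

theorem Ep_deriv (p : ℕ) (z : ℂ) :
    HasDerivAt (MinMod.Ep p) (-(z ^ p) * Complex.exp (gg p z)) z := by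
  have h1 := ((hasDerivAt_id z).const_sub 1).mul (gg_deriv p z).cexp
  have h2 : (-1 : ℂ) * Complex.exp (gg p z) +
      (1 - z) * (Complex.exp (gg p z) * ∑ k ∈ range p, z ^ k) = -(z ^ p) * Complex.exp (gg p z) := by
    have h3 : (1 - z) * ∑ k ∈ range p, z ^ k = 1 - z ^ p := mul_neg_geom_sum z p
    calc (-1 : ℂ) * Complex.exp (gg p z) + (1 - z) * (Complex.exp (gg p z) * ∑ k ∈ range p, z ^ k)
        = Complex.exp (gg p z) * (-1 + (1 - z) * ∑ k ∈ range p, z ^ k) := by ring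
      _ = _ := by rw [h3]; ring
  have h4 : MinMod.Ep p = (fun z : ℂ => (1 - z) * Complex.exp (gg p z)) := rfl
  rw [h4, ← h2]
  exact h1

/-- the Gronwall step -/
theorem stepA (p : ℕ) (u v : ℂ) (K : ℝ)
    (hK : ∀ x : ℝ, 0 ≤ x → x ≤ 1 → ‖u + x * (v - u)‖ ^ p * ‖v - u‖ ≤ K * ‖1 - (u + x * (v - u))‖) :
    ‖MinMod.Ep p v‖ ≤ ‖MinMod.Ep p u‖ * Real.exp K := by
  set f : ℝ → ℂ := fun x => MinMod.Ep p (u + x * (v - u)) with hf
  set f' : ℝ → ℂ := fun x =>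
    (-((u + x * (v - u)) ^ p) * Complex.exp (gg p (u + x * (v - u)))) * (v - u) with hf'
  have hd : ∀ x : ℝ, HasDerivAt f (f' x) x := by
    intro x
    have h1 : HasDerivAt (fun x : ℝ => u + (x : ℂ) * (v - u)) (v - u) x := by
      have h2 := ((Complex.ofRealCLM.hasDerivAt (x := x)).mul_const (v - u)).const_add u
      simpa using h2
    exact HasDerivAt.comp x (Ep_deriv p (u + x * (v - u))) h1
  have hb : ∀ x ∈ Set.Ico (0 : ℝ) 1, ‖f' x‖ ≤ K * ‖f x‖ + 0 := by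
    intro x hx
    have h1 := hK x hx.1 hx.2.le
    simp only [hf, hf', Ep_eq, norm_mul, norm_neg, norm_pow]
    rw [add_zero]
    have h2 := mul_le_mul_of_nonneg_right h1 (norm_nonneg (Complex.exp (gg p (u + x * (v - u)))))
    calc _ = ‖u + x * (v - u)‖ ^ p * ‖v - u‖ * ‖Complex.exp (gg p (u + x * (v - u)))‖ := by ring
      _ ≤ _ := h2
      _ = _ := by ring
  have h := norm_le_gronwallBound_of_norm_deriv_right_le (f := f) (f' := f') (δ := ‖f 0‖) (K := K)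
    (ε := 0) (a := 0) (b := 1) (fun x _ => (hd x).continuousAt.continuousWithinAt)
    (fun x _ => (hd x).hasDerivWithinAt) le_rfl hb 1 ⟨zero_le_one, le_rfl⟩
  rw [gronwallBound_ε0, sub_zero, mul_one] at h
  have e1 : f 1 = MinMod.Ep p v := by simp [hf]
  have e0 : f 0 = MinMod.Ep p u := by simp [hf]
  rwa [e1, e0] at h

theorem t_EP : S_EP := by
  refine ⟨12, by norm_num, ?_⟩
  intro p u η hu hη
  have hη0 := norm_nonneg η
  have hp0 : (0 : ℝ) ≤ p := Nat.cast_nonneg p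
  have hη8 : ‖η‖ ≤ 1 / 8 := by nlinarith
  have hu1 : 0 < ‖1 - u‖ := norm_pos_iff.2 (sub_ne_zero.2 (Ne.symm hu))
  have hu0 := norm_nonneg u
  have hηp : ‖η‖ * p ≤ 1 / 8 := by nlinarith
  set v := u * Complex.exp η with hv
  have hvu : ‖v - u‖ ≤ 2 * ‖η‖ * ‖u‖ := by
    have h1 : v - u = u * (Complex.exp η - 1) := by rw [hv]; ring
    rw [h1, norm_mul]
    have h2 := Complex.norm_exp_sub_one_le (x := η) (by linarith)
    calc ‖u‖ * ‖Complex.exp η - 1‖ ≤ ‖u‖ * (2 * ‖η‖) := mul_le_mul_of_nonneg_left h2 hu0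
      _ = _ := by ring
  have hup0 : 0 ≤ ‖u‖ ^ (p + 1) := by positivity
  rcases le_or_gt (4 * ‖η‖ * ‖u‖) ‖1 - u‖ with hA | hB
  · -- case A
    refine (stepA p u v (8 * ‖η‖ * ‖u‖ ^ (p + 1) / ‖1 - u‖) ?_).trans ?_
    · intro x hx0 hx1
      have h1 : ‖(x : ℂ) * (v - u)‖ ≤ ‖v - u‖ := by
        rw [norm_mul, Complex.norm_real, Real.norm_of_nonneg hx0]
        exact mul_le_of_le_one_left (norm_nonneg _) hx1
      have h2 : ‖1 - u‖ / 2 ≤ ‖1 - (u + x * (v - u))‖ := by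
        have h3 : ‖1 - u‖ ≤ ‖1 - (u + x * (v - u))‖ + ‖(x : ℂ) * (v - u)‖ := by
          have : 1 - u = (1 - (u + x * (v - u))) + x * (v - u) := by ring
          calc ‖1 - u‖ = ‖(1 - (u + x * (v - u))) + x * (v - u)‖ := by rw [← this]
            _ ≤ _ := norm_add_le _ _
        nlinarith
      have h4 : ‖u + x * (v - u)‖ ≤ ‖u‖ * (1 + 2 * ‖η‖) := by
        calc ‖u + x * (v - u)‖ ≤ ‖u‖ + ‖(x : ℂ) * (v - u)‖ := norm_add_le _ _
          _ ≤ ‖u‖ + 2 * ‖η‖ * ‖u‖ := by linarith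
          _ = _ := by ring
      have h5 : (1 + 2 * ‖η‖) ^ p ≤ 2 := by
        have h6 : (1 + 2 * ‖η‖) ^ p ≤ Real.exp (2 * ‖η‖) ^ p :=
          pow_le_pow_left₀ (by positivity) (by linarith [Real.add_one_le_exp (2 * ‖η‖)]) _
        rw [← Real.exp_nat_mul] at h6
        refine h6.trans ?_
        have h7 : (p : ℝ) * (2 * ‖η‖) ≤ 1 / 4 := by nlinarith
        calc Real.exp (p * (2 * ‖η‖)) ≤ Real.exp (1 / 4) := Real.exp_le_exp.2 h7
          _ ≤ 2 := by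
            have h8 : Real.exp (1 / 4) ^ 4 = Real.exp 1 := by
              rw [← Real.exp_nat_mul]; norm_num
            by_contra hcon
            push Not at hcon
            have h9 : (2 : ℝ) ^ 4 < Real.exp (1 / 4) ^ 4 := pow_lt_pow_left₀ hcon (by norm_num) (by norm_num)
            rw [h8] at h9
            have := Real.exp_one_lt_d9
            norm_num at h9
            linarith
      have h6 : ‖u + x * (v - u)‖ ^ p ≤ 2 * ‖u‖ ^ p := by
        calc ‖u + x * (v - u)‖ ^ p ≤ (‖u‖ * (1 + 2 * ‖η‖)) ^ p :=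
              pow_le_pow_left₀ (norm_nonneg _) h4 _
          _ = ‖u‖ ^ p * (1 + 2 * ‖η‖) ^ p := mul_pow _ _ _
          _ ≤ ‖u‖ ^ p * 2 := mul_le_mul_of_nonneg_left h5 (by positivity)
          _ = _ := by ring
      calc ‖u + x * (v - u)‖ ^ p * ‖v - u‖ ≤ (2 * ‖u‖ ^ p) * (2 * ‖η‖ * ‖u‖) :=
            mul_le_mul h6 hvu (norm_nonneg _) (by positivity)
        _ = 8 * ‖η‖ * ‖u‖ ^ (p + 1) / ‖1 - u‖ * (‖1 - u‖ / 2) := by
            rw [pow_succ]; field_simp; ring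
        _ ≤ _ := mul_le_mul_of_nonneg_left h2 (by positivity)
    · refine mul_le_mul_of_nonneg_left (Real.exp_le_exp.2 ?_) (norm_nonneg _)
      have h1 : 8 * ‖η‖ * ‖u‖ ^ (p + 1) / ‖1 - u‖ = (8 * ‖η‖ * ‖u‖ ^ (p + 1)) * (1 / ‖1 - u‖) := by ring
      rw [h1]
      have h2 : 0 ≤ 1 / ‖1 - u‖ := by positivity
      calc (8 * ‖η‖ * ‖u‖ ^ (p + 1)) * (1 / ‖1 - u‖)
          ≤ (12 * ‖η‖ * (p + 1) * ‖u‖ ^ (p + 1)) * (1 + 1 / ‖1 - u‖) := by
            apply mul_le_mul _ (by linarith) h2 (by positivity)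
            apply mul_le_mul_of_nonneg_right _ hup0
            nlinarith
        _ = _ := by ring
  · -- case B
    have hlow : 1 ≤ ‖u‖ * (1 + 4 * ‖η‖) := by
      have h1 : (1 : ℝ) ≤ ‖1 - u‖ + ‖u‖ := by
        calc (1 : ℝ) = ‖(1 - u) + u‖ := by rw [sub_add_cancel]; simp
          _ ≤ _ := norm_add_le _ _
      nlinarith
    have hup : ‖u‖ ≤ 1 + 8 * ‖η‖ := by
      have h1 : ‖u‖ ≤ 1 + ‖1 - u‖ := by
        calc ‖u‖ = ‖1 - (1 - u)‖ := by rw [sub_sub_cancel]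
          _ ≤ ‖(1 : ℂ)‖ + ‖1 - u‖ := norm_sub_le _ _
          _ = _ := by simp
      nlinarith
    have hu2 : ‖u‖ ≤ 2 := by linarith
    have hpow : 1 ≤ 2 * ‖u‖ ^ (p + 1) := by
      have h1 : (1 : ℝ) ≤ (‖u‖ * (1 + 4 * ‖η‖)) ^ (p + 1) := one_le_pow₀ hlow
      rw [mul_pow] at h1
      have h2 : (1 + 4 * ‖η‖) ^ (p + 1) ≤ 2 := by
        have h6 : (1 + 4 * ‖η‖) ^ (p + 1) ≤ Real.exp (4 * ‖η‖) ^ (p + 1) :=
          pow_le_pow_left₀ (by positivity) (by linarith [Real.add_one_le_exp (4 * ‖η‖)]) _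
        rw [← Real.exp_nat_mul] at h6
        refine h6.trans ?_
        have h7 : ((p + 1 : ℕ) : ℝ) * (4 * ‖η‖) ≤ 1 / 2 := by push_cast; nlinarith
        calc Real.exp (((p + 1 : ℕ) : ℝ) * (4 * ‖η‖)) ≤ Real.exp (1 / 2) := Real.exp_le_exp.2 h7
          _ ≤ 2 := by
            have h8 : Real.exp (1 / 2) ^ 2 = Real.exp 1 := by
              rw [← Real.exp_nat_mul]; norm_num
            by_contra hcon
            push Not at hcon
            have h9 : (2 : ℝ) ^ 2 < Real.exp (1 / 2) ^ 2 := pow_lt_pow_left₀ hcon (by norm_num) (by norm_num)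
            rw [h8] at h9
            have := Real.exp_one_lt_d9
            norm_num at h9
            linarith
      calc (1 : ℝ) ≤ ‖u‖ ^ (p + 1) * (1 + 4 * ‖η‖) ^ (p + 1) := h1
        _ ≤ ‖u‖ ^ (p + 1) * 2 := mul_le_mul_of_nonneg_left h2 hup0
        _ = _ := by ring
    have h3 : ∀ k, k < p → ‖u‖ ^ (k + 1) ≤ 3 := by
      intro k hk
      have h1 : ‖u‖ ^ (k + 1) ≤ (1 + 8 * ‖η‖) ^ (k + 1) := pow_le_pow_left₀ hu0 hup _
      have h2 : (1 + 8 * ‖η‖) ^ (k + 1) ≤ (1 + 8 * ‖η‖) ^ p :=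
        pow_le_pow_right₀ (by linarith) (by omega)
      have h6 : (1 + 8 * ‖η‖) ^ p ≤ Real.exp (8 * ‖η‖) ^ p :=
        pow_le_pow_left₀ (by positivity) (by linarith [Real.add_one_le_exp (8 * ‖η‖)]) _
      rw [← Real.exp_nat_mul] at h6
      have h7 : (p : ℝ) * (8 * ‖η‖) ≤ 1 := by nlinarith
      have h8 : Real.exp (p * (8 * ‖η‖)) ≤ Real.exp 1 := Real.exp_le_exp.2 h7
      have := Real.exp_one_lt_d9
      linarith
    have hg : ‖gg p v - gg p u‖ ≤ 6 * ‖η‖ * p := by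
      unfold gg
      rw [← sum_sub_distrib]
      refine (norm_sum_le _ _).trans ?_
      have h4 : ∀ k ∈ range p, ‖v ^ (k + 1) / ((k : ℂ) + 1) - u ^ (k + 1) / ((k : ℂ) + 1)‖ ≤ 6 * ‖η‖ := by
        intro k hk
        rw [mem_range] at hk
        have hk1 : ((k : ℂ) + 1) ≠ 0 := by exact_mod_cast Nat.succ_ne_zero k
        have hk1' : ‖((k : ℂ) + 1)‖ = (k : ℝ) + 1 := by
          have : ((k : ℂ) + 1) = (((k : ℝ) + 1 : ℝ) : ℂ) := by push_cast; ring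
          rw [this, Complex.norm_real, Real.norm_of_nonneg (by positivity)]
        have e1 : v ^ (k + 1) / ((k : ℂ) + 1) - u ^ (k + 1) / ((k : ℂ) + 1) =
            u ^ (k + 1) * (Complex.exp (((k : ℂ) + 1) * η) - 1) / ((k : ℂ) + 1) := by
          have e2 : Complex.exp (((k : ℂ) + 1) * η) = Complex.exp η ^ (k + 1) := by
            rw [← Complex.exp_nat_mul]; push_cast; rfl
          rw [e2, hv, mul_pow]; ring
        rw [e1, norm_div, norm_mul, norm_pow, hk1']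
        have hkη : ‖((k : ℂ) + 1) * η‖ ≤ 1 := by
          rw [norm_mul, hk1']
          have : ((k : ℝ) + 1) ≤ p := by exact_mod_cast hk
          nlinarith
        have h5 := Complex.norm_exp_sub_one_le hkη
        rw [norm_mul, hk1'] at h5
        rw [div_le_iff₀ (by positivity)]
        calc ‖u‖ ^ (k + 1) * ‖Complex.exp (((k : ℂ) + 1) * η) - 1‖
            ≤ 3 * (2 * (((k : ℝ) + 1) * ‖η‖)) := mul_le_mul (h3 k hk) h5 (norm_nonneg _) (by norm_num)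
          _ = _ := by ring
      refine (sum_le_sum h4).trans ?_
      rw [sum_const, card_range, nsmul_eq_mul]
      exact le_of_eq (by ring)
    have h1v : ‖1 - v‖ ≤ ‖1 - u‖ * Real.exp (2 * ‖η‖ * ‖u‖ / ‖1 - u‖) := by
      have h1 : ‖1 - v‖ ≤ ‖1 - u‖ + ‖v - u‖ := by
        calc ‖1 - v‖ = ‖(1 - u) - (v - u)‖ := by congr 1; ring
          _ ≤ _ := norm_sub_le _ _
      have h2 := Real.add_one_le_exp (2 * ‖η‖ * ‖u‖ / ‖1 - u‖)
      calc ‖1 - v‖ ≤ ‖1 - u‖ + 2 * ‖η‖ * ‖u‖ := by linarith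
        _ = ‖1 - u‖ * (2 * ‖η‖ * ‖u‖ / ‖1 - u‖ + 1) := by field_simp; ring
        _ ≤ _ := mul_le_mul_of_nonneg_left h2 hu1.le
    have hexp : ‖Complex.exp (gg p v)‖ ≤ ‖Complex.exp (gg p u)‖ * Real.exp (6 * ‖η‖ * p) := by
      rw [Complex.norm_exp, Complex.norm_exp, ← Real.exp_add]
      apply Real.exp_le_exp.2
      have h1 := (Complex.abs_re_le_norm (gg p v - gg p u)).trans hg
      rw [Complex.sub_re] at h1
      have h2 := le_abs_self ((gg p v).re - (gg p u).re)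
      linarith
    rw [Ep_eq, Ep_eq, norm_mul, norm_mul]
    calc ‖1 - v‖ * ‖Complex.exp (gg p v)‖
        ≤ (‖1 - u‖ * Real.exp (2 * ‖η‖ * ‖u‖ / ‖1 - u‖)) *
          (‖Complex.exp (gg p u)‖ * Real.exp (6 * ‖η‖ * p)) :=
          mul_le_mul h1v hexp (norm_nonneg _) (by positivity)
      _ = ‖1 - u‖ * ‖Complex.exp (gg p u)‖ *
          Real.exp (2 * ‖η‖ * ‖u‖ / ‖1 - u‖ + 6 * ‖η‖ * p) := by rw [Real.exp_add]; ring
      _ ≤ _ := by
          refine mul_le_mul_of_nonneg_left (Real.exp_le_exp.2 ?_) (by positivity)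
          have hi0 : 0 ≤ 1 / ‖1 - u‖ := by positivity
          have a1 : 2 * ‖η‖ * ‖u‖ / ‖1 - u‖ ≤ 12 * ‖η‖ * (p + 1) * ‖u‖ ^ (p + 1) * (1 / ‖1 - u‖) := by
            have : 2 * ‖η‖ * ‖u‖ / ‖1 - u‖ = (2 * ‖η‖ * ‖u‖) * (1 / ‖1 - u‖) := by ring
            rw [this]
            apply mul_le_mul_of_nonneg_right _ hi0
            have b1 : 2 * ‖η‖ * ‖u‖ ≤ 4 * ‖η‖ := by nlinarith
            have b2 : 4 * ‖η‖ ≤ 4 * ‖η‖ * (2 * ‖u‖ ^ (p + 1)) := le_mul_of_one_le_right (by positivity) hpow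
            have b3 : 0 ≤ ‖η‖ * ‖u‖ ^ (p + 1) := by positivity
            have b4 : 0 ≤ ‖η‖ * ‖u‖ ^ (p + 1) * p := by positivity
            nlinarith
          have a2 : 6 * ‖η‖ * p ≤ 12 * ‖η‖ * (p + 1) * ‖u‖ ^ (p + 1) := by
            have b1 : 6 * ‖η‖ * (p + 1) ≤ 6 * ‖η‖ * (p + 1) * (2 * ‖u‖ ^ (p + 1)) :=
              le_mul_of_one_le_right (by positivity) hpow
            nlinarith
          calc 2 * ‖η‖ * ‖u‖ / ‖1 - u‖ + 6 * ‖η‖ * p
              ≤ 12 * ‖η‖ * (p + 1) * ‖u‖ ^ (p + 1) * (1 / ‖1 - u‖) +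
                12 * ‖η‖ * (p + 1) * ‖u‖ ^ (p + 1) := add_le_add a1 a2
            _ = _ := by ring

end

end Pool.Agent.W933.CI
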